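import Pool.Agent.MP_5daf37_lc.BN.Lin

/-!
A well conditioned realization with small row sums cannot approximate a flat unitary matrix.
-/

open Matrix Finset

namespace Pool.Agent.MP_5daf37_lc.BN

variable {𝕜 : Type} [RCLike 𝕜] {κ ν ι : Type} [Fintype κ] [Fintype ν] [Fintype ι]

theorem nsq_elim (u : ν → 𝕜) (v : ι → 𝕜) : nsq (Sum.elim u v) = nsq u + nsq v := by
  simp [nsq, Fintype.sum_sum_type]

theorem trace_mul_le [DecidableEq κ] {P W : Matrix κ κ 𝕜} {c μ : ℝ} (hG : Row (Pᴴ * P) c)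
    (hμ : 0 ≤ μ) (h1 : ∀ a, W a a = 0 ∨ W a a = 1) (h2 : ∀ a b, a ≠ b → ‖W a b‖ ≤ μ) :
    RCLike.re (Pᴴ * P * W).trace ≤ RCLike.re (Pᴴ * P).trace + Fintype.card κ * (c * μ) := by
  have h0 : ∀ a, 0 ≤ RCLike.re ((Pᴴ * P) a a) := fun a => by
    have : (Pᴴ * P) a a = nsq fun b => P b a := by rw [nsq_eq]; rfl
    rw [this, RCLike.ofReal_re]; exact nsq_nonneg _
  rw [trace, trace, map_sum, map_sum, ← nsmul_eq_mul, ← card_univ, ← sum_const, ← sum_add_distrib]
  refine sum_le_sum fun a _ => ?_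
  rw [diag_apply, diag_apply, mul_apply, ← add_sum_erase _ _ (mem_univ a), map_add]
  refine add_le_add ?_ ((RCLike.re_le_norm _).trans ((norm_sum_le _ _).trans ?_))
  · rcases h1 a with h | h <;> simp [h, h0 a]
  · refine le_trans (sum_le_sum fun b hb => ?_) ((sum_le_sum_of_subset_of_nonneg (erase_subset a _)
      fun b _ _ => mul_nonneg (norm_nonneg ((Pᴴ * P) a b)) hμ).trans ?_)
    · rw [norm_mul]
      exact mul_le_mul_of_nonneg_left (h2 b a (ne_of_mem_erase hb)) (norm_nonneg _)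
    · rw [← sum_mul]; exact mul_le_mul_of_nonneg_right (hG a) hμ

theorem trace_pow_le [DecidableEq ν] {Y : Matrix ν κ 𝕜} {Λ Ψ a ε : ℝ} {R : ℕ} (h1 : Row Y 1)
    (h2 : Row Yᴴ Λ) (hΛ : 0 < Λ) (h3 : Real.exp (-Ψ) ≤ ‖(Y * Yᴴ).det‖) (ha : 0 < a) (hε : 0 < ε)
    (hR : Λ ≤ ε * (R * Real.exp (-a))) :
    RCLike.re ((1 + ((-Λ⁻¹ : ℝ) : 𝕜) • (Y * Yᴴ)) ^ R).trace ≤
      (Fintype.card ν + Ψ) / a + Fintype.card ν * ε := by
  obtain ⟨V, d, hd⟩ := exists_dg Y
  have h4 := count (a := a) hd.h3 (hd.trace_eq.symm.trans_le h1.trace_le) (h3.trans_eq hd.det_eq)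
  have h5 : ∀ i, (1 + -Λ⁻¹ * d i) ^ R ≤ (if d i < Real.exp (-a) then 1 else 0) + ε := fun i => by
    have e1 : d i ≤ Λ := hd.le_of_row (by simpa using h1.mul h2 hΛ.le) i
    have e2 : Λ⁻¹ * d i ≤ 1 := by rwa [inv_mul_le_iff₀ hΛ, mul_one]
    have e3 : 0 ≤ Λ⁻¹ * d i := mul_nonneg (inv_nonneg.2 hΛ.le) (hd.h3 i)
    split_ifs with h
    · exact (pow_le_one₀ (by linarith) (by linarith)).trans (by linarith)
    · have e4 : (1 + -Λ⁻¹ * d i) ^ R ≤ Real.exp (-(R * (Λ⁻¹ * d i))) := by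
        rw [← mul_neg, Real.exp_nat_mul]
        exact pow_le_pow_left₀ (by linarith) (by linarith [Real.add_one_le_exp (-(Λ⁻¹ * d i))]) R
      have e5 : 1 ≤ ε * (R * (Λ⁻¹ * d i)) := by
        rw [mul_left_comm (R : ℝ), mul_left_comm, le_inv_mul_iff₀ hΛ, mul_one]
        exact hR.trans (by gcongr; exact not_lt.1 h)
      rw [zero_add]
      refine e4.trans ?_
      rw [Real.exp_neg, inv_le_iff_one_le_mul₀ (Real.exp_pos _)]
      exact e5.trans (mul_le_mul_of_nonneg_left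
        (by linarith [Real.add_one_le_exp (R * (Λ⁻¹ * d i))]) hε.le)
  rw [hd.trace_pow]
  refine (sum_le_sum fun i _ => h5 i).trans ?_
  rw [sum_add_distrib, sum_boole, sum_const, nsmul_eq_mul, card_univ]
  exact add_le_add_left ((le_div_iff₀ ha).2 h4) _

theorem exists_sub [DecidableEq ν] [DecidableEq ι] {M : Matrix ν ν 𝕜} {B : Matrix ν ι 𝕜} {g : ℝ}
    (Z : Matrix ν ι 𝕜) (hg : 1 ≤ g) (rM : Row M 1) (rB : Row B 1) (cB : Row Bᴴ (65 * g))
    (hp : Fintype.card ν ≤ g * Fintype.card ι) (hdet : Real.exp (-(g * Fintype.card ι)) ≤ ‖M.det‖) :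
    ∃ S : Matrix ν ι 𝕜, 16 * S.rank ≤ Fintype.card ι ∧ ∀ x, S *ᵥ x = 0 → M *ᵥ Z *ᵥ x = B *ᵥ x →
      Real.exp (-(32 * g)) ^ 2 * nsq (Z *ᵥ x) ≤ nsq x := by
  obtain ⟨V, d, hd⟩ := exists_dg Mᴴ
  have h1 := count (a := 48 * g) (N := g * Fintype.card ι) (Ψ := 2 * (g * Fintype.card ι)) hd.h3
    (by rw [← hd.trace_eq, conjTranspose_conjTranspose, trace_mul_comm]
        exact rM.trace_le.trans hp) (by
      rw [← hd.det_eq, det_mul, conjTranspose_conjTranspose, det_conjTranspose, norm_mul, norm_star,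
        two_mul, neg_add, Real.exp_add]
      exact mul_self_le_mul_self (Real.exp_pos _).le hdet)
  refine ⟨diagonal (fun i => if d i < Real.exp (-(48 * g)) then (1 : 𝕜) else 0) * (Vᴴ * Z), ?_,
    fun x hx e => ?_⟩
  · have h2 := rank_mul_le_left (diagonal fun i => if d i < Real.exp (-(48 * g)) then (1 : 𝕜) else 0)
      (Vᴴ * Z)
    rw [rank_diagonal, Fintype.card_subtype] at h2
    simp only [ne_eq, ite_eq_right_iff, one_ne_zero, imp_false, not_not] at h2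
    have h3 : (16 * (univ.filter fun i => d i < Real.exp (-(48 * g))).card : ℝ) ≤
        Fintype.card ι := le_of_mul_le_mul_left (by linarith) (by linarith : 0 < 3 * g)
    exact (Nat.mul_le_mul_left 16 h2).trans (by exact_mod_cast h3)
  · have h2 : Real.exp (-(48 * g)) * nsq (Z *ᵥ x) ≤ nsq (B *ᵥ x) := by
      conv_rhs => rw [← e, hd.nsq_mulVec_eq]
      rw [← nsq_unitary (A := Vᴴ) (by simpa using hd.h2), nsq, mul_sum]
      refine sum_le_sum fun i _ => ?_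
      by_cases h : d i < Real.exp (-(48 * g))
      · have := congrFun hx i
        rw [← mulVec_mulVec, mulVec_diagonal, if_pos h, one_mul, ← mulVec_mulVec] at this
        rw [this]; simp
      · exact mul_le_mul_of_nonneg_right (not_lt.1 h) (sq_nonneg _)
    have h3 := nsq_le_of_row rB cB x
    have h4 : Real.exp (-(16 * g)) * (65 * g) ≤ 1 := by
      rw [Real.exp_neg, inv_mul_le_iff₀ (Real.exp_pos _), mul_one,
        show 16 * g = 8 * g + 8 * g by ring, Real.exp_add]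
      nlinarith [Real.add_one_le_exp (8 * g)]
    calc _ = Real.exp (-(16 * g)) * (Real.exp (-(48 * g)) * nsq (Z *ᵥ x)) := by
          rw [← mul_assoc, sq, ← Real.exp_add, ← Real.exp_add]; congr 2; ring
      _ ≤ Real.exp (-(16 * g)) * (65 * g * nsq x) :=
          mul_le_mul_of_nonneg_left (h2.trans h3) (Real.exp_pos _).le
      _ ≤ _ := by rw [← mul_assoc]; exact mul_le_of_le_one_left (nsq_nonneg _) h4

theorem pair_le {a u x : ι → 𝕜} {v : ν → 𝕜} {t : ℝ} (h1 : nsq u = nsq x) (h2 : nsq v ≤ nsq x)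
    (h3 : 64 * nsq (a - u) ≤ nsq x) (ht : 0 ≤ t)
    (h4 : ‖star a ⬝ᵥ u + star x ⬝ᵥ x‖ ^ 2 ≤ (nsq v + nsq a + nsq x) * t) : 5 / 4 * nsq x ≤ t := by
  obtain ⟨e, rfl⟩ : ∃ e, a = u + e := ⟨a - u, by simp⟩
  rw [add_sub_cancel_left] at h3
  set s := RCLike.re (star e ⬝ᵥ u)
  have e1 : RCLike.re (star (u + e) ⬝ᵥ u + star x ⬝ᵥ x) = 2 * nsq x + s := by
    rw [star_add, add_dotProduct, ← nsq_eq, ← nsq_eq, h1]
    simp only [map_add, RCLike.ofReal_re]; ring
  have e2 : nsq (u + e) = nsq x + 2 * s + nsq e := by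
    have : RCLike.re (star u ⬝ᵥ e) = s := by
      rw [star_dotProduct, RCLike.star_def, RCLike.conj_re]
    rw [← RCLike.ofReal_re (K := 𝕜) (nsq (u + e)), nsq_eq, star_add, add_dotProduct, dotProduct_add,
      dotProduct_add, ← nsq_eq, ← nsq_eq, h1]
    simp only [map_add, RCLike.ofReal_re, this]; ring
  have e3 : s ^ 2 ≤ nsq e * nsq x := by
    rw [← h1, ← sq_abs]
    exact (pow_le_pow_left₀ (abs_nonneg _) (RCLike.abs_re_le_norm _) 2).trans (cauchy e u)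
  have e4 : (2 * nsq x + s) ^ 2 ≤ (3 * nsq x + 2 * s + nsq e) * t := by
    rw [← e1, ← sq_abs]
    refine ((pow_le_pow_left₀ (abs_nonneg _) (RCLike.abs_re_le_norm _) 2).trans h4).trans ?_
    exact mul_le_mul_of_nonneg_right (by linarith) ht
  have x0 := nsq_nonneg x
  have e0 := nsq_nonneg e
  have e5 : -(nsq x / 8) ≤ s := (abs_le.1 (abs_le_of_sq_le_sq (by nlinarith) (by positivity))).1
  by_contra h
  rcases x0.eq_or_lt with h0 | h0
  · exact h (by rw [← h0, mul_zero]; exact ht)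
  · have := mul_le_mul_of_nonneg_left (not_le.1 h).le
      (by linarith : 0 ≤ 3 * nsq x + 2 * s + nsq e)
    nlinarith

section row
variable {l m : Type} {a b : ℝ}

theorem Row.mono {A : Matrix l ι 𝕜} (h : Row A a) (hab : a ≤ b) : Row A b :=
  fun i => (h i).trans hab

theorem Row.add {A B : Matrix l ι 𝕜} (hA : Row A a) (hB : Row B b) : Row (A + B) (a + b) :=
  fun i => (sum_le_sum fun j _ => norm_add_le (A i j) (B i j)).trans
    (by rw [sum_add_distrib]; exact add_le_add (hA i) (hB i))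

theorem Row.smul {A : Matrix l ι 𝕜} (hA : Row A a) (c : ℝ) : Row ((c : 𝕜) • A) (|c| * a) :=
  fun i => by
    simp only [Matrix.smul_apply, smul_eq_mul, norm_mul, RCLike.norm_ofReal, ← mul_sum]
    exact mul_le_mul_of_nonneg_left (hA i) (abs_nonneg _)

theorem Row.rows {A : Matrix l ι 𝕜} {B : Matrix m ι 𝕜} (hA : Row A a) (hB : Row B a) :
    Row (fromRows A B) a := by
  rintro (i | i)
  exacts [hA i, hB i]

theorem Row.cols {A : Matrix l ι 𝕜} {B : Matrix l ν 𝕜} (hA : Row A a) (hB : Row B b) :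
    Row (fromCols A B) (a + b) := fun i => by
  rw [Fintype.sum_sum_type]; exact add_le_add (hA i) (hB i)

theorem row_zero : Row (0 : Matrix l ι 𝕜) 0 := fun i => by simp

end row

theorem key [DecidableEq κ] [DecidableEq ν] [DecidableEq ι] {l m : Type} [Fintype l] [Fintype m]
    {Y : Matrix ν κ 𝕜} {T : Matrix κ ι 𝕜} (A : Matrix l ι 𝕜) (S : Matrix m ι 𝕜)
    {Λ Ψ a ε μ c : ℝ} {R : ℕ} (h1 : Row Y 1) (h2 : Row Yᴴ Λ) (hΛ : 0 < Λ)
    (h3 : Real.exp (-Ψ) ≤ ‖(Y * Yᴴ).det‖) (ha : 0 < a) (hε : 0 < ε)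
    (hR : Λ ≤ ε * ((R + R : ℕ) * Real.exp (-a))) (hμ : 0 ≤ μ) (hc : 0 ≤ c)
    (t1 : ∀ a, (T * Tᴴ) a a = 0 ∨ (T * Tᴴ) a a = 1) (t2 : ∀ a b, a ≠ b → ‖(T * Tᴴ) a b‖ ≤ μ)
    (hk : ∀ x, A *ᵥ x = 0 → S *ᵥ x = 0 → ∃ k, Y *ᵥ k = 0 ∧
      ∀ t, 0 ≤ t → ‖star k ⬝ᵥ T *ᵥ x‖ ^ 2 ≤ nsq k * t → c * nsq x ≤ t) :
    c * (Fintype.card ι - A.rank - S.rank) + Fintype.card ν ≤
      (Fintype.card ν + Ψ) / a + Fintype.card ν * ε + Fintype.card κ * (1 + 2 ^ (R + R) * μ) := by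
  set Q : Matrix κ κ 𝕜 := 1 + ((-Λ⁻¹ : ℝ) : 𝕜) • (Yᴴ * Y) with hQ
  have q1 : (Q ^ R)ᴴ = Q ^ R := by
    rw [conjTranspose_pow, hQ]; simp [conjTranspose_smul]
  have q2 : Row Q 2 := (row_one.add ((h2.mul h1 zero_le_one).smul _)).mono (by
    rw [abs_neg, abs_of_pos (inv_pos.2 hΛ), mul_one, inv_mul_cancel₀ hΛ.ne']; norm_num)
  have q3 : (Q ^ R)ᴴ * Q ^ R = Q ^ (R + R) := by rw [q1, pow_add]
  have e1 := le_trace (Q ^ R * T) A S hc fun x x1 x2 => by
    obtain ⟨k, k1, k2⟩ := hk x x1 x2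
    have k3 : ∀ r : ℕ, (Q ^ r) *ᵥ k = k := fun r => by
      induction r with
      | zero => simp
      | succ r ih =>
        have : Q *ᵥ k = k := by
          rw [hQ, add_mulVec, smul_mulVec, ← mulVec_mulVec, k1]; simp
        rw [pow_succ, ← mulVec_mulVec, this, ih]
    refine k2 _ (nsq_nonneg _) (le_of_eq_of_le ?_ (cauchy _ _))
    rw [← mulVec_mulVec, dotProduct_mulVec _ (Q ^ R), ← q1, ← star_mulVec, k3]
  have e2 := trace_mul_le (P := Q ^ R) (c := 2 ^ (R + R)) (q3 ▸ q2.pow zero_le_two _) hμ t1 t2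
  have e3 := congrArg RCLike.re (trace_swap Y ((-Λ⁻¹ : ℝ) : 𝕜) (R + R))
  have e4 := trace_pow_le h1 h2 hΛ h3 ha hε hR
  rw [conjTranspose_mul, Matrix.mul_assoc, trace_mul_comm, ← Matrix.mul_assoc _ _ T,
    Matrix.mul_assoc _ T] at e1
  rw [q3] at e1 e2
  simp only [map_add, RCLike.natCast_re] at e3
  linarith

theorem core [DecidableEq ν] [DecidableEq ι] [Nonempty ι] {M : Matrix ν ν 𝕜} {B Z : Matrix ν ι 𝕜}
    {C : Matrix ι ν 𝕜} {U : Matrix ι ι 𝕜} {g μ : ℝ} (hg : 1 ≤ g) (rM : Row M 1) (rB : Row B 1)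
    (rC : Row C 1) (cM : Row Mᴴ (65 * g)) (cB : Row Bᴴ (65 * g)) (cC : Row Cᴴ 1)
    (hp : Fintype.card ν ≤ g * Fintype.card ι) (hdet : Real.exp (-(g * Fintype.card ι)) ≤ ‖M.det‖)
    (hU : Uᴴ * U = 1) (hμ : ∀ i j, ‖U i j‖ ≤ μ) (hr : 16 * (M * Z - B).rank ≤ Fintype.card ι)
    (hx : ∀ x, 64 * nsq ((C * Z - U) *ᵥ x) ≤ nsq x) :
    1 ≤ Real.exp (Real.exp (2330 * g)) * μ := by
  obtain ⟨S, hS, hS'⟩ := exists_sub Z hg rM rB cB hp hdet
  set τ := Real.exp (-(32 * g)) with hτ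
  have τ0 : 0 < τ := Real.exp_pos _
  have τ1 : |(-τ)| ≤ 1 := by
    rw [abs_neg, abs_of_pos τ0]; exact Real.exp_le_one_iff.2 (by linarith)
  have μ0 : 0 ≤ μ := (norm_nonneg _).trans (hμ (Classical.arbitrary ι) (Classical.arbitrary ι))
  have n0 : (0 : ℝ) < Fintype.card ι := by exact_mod_cast Fintype.card_pos
  let Y₀ : Matrix (ν ⊕ ι) (ν ⊕ ι) 𝕜 := ((1 / 2 : ℝ) : 𝕜) • fromBlocks M 0 C (((-τ : ℝ) : 𝕜) • 1)
  let Y₁ : Matrix (ν ⊕ ι) ι 𝕜 := ((1 / 2 : ℝ) : 𝕜) • fromRows (((-τ : ℝ) : 𝕜) • B) 0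
  have eY : fromCols Y₀ Y₁ = ((1 / 2 : ℝ) : 𝕜) • fromRows
      (fromCols (fromCols M 0) (((-τ : ℝ) : 𝕜) • B))
      (fromCols (fromCols C (((-τ : ℝ) : 𝕜) • 1)) 0) := by
    ext (i | i) ((j | j) | j) <;> rfl
  have half : |(1 / 2 : ℝ)| = 1 / 2 := by norm_num
  have h1 : Row (fromCols Y₀ Y₁) 1 := by
    rw [eY]
    refine ((Row.rows (a := 2) (((rM.cols row_zero).cols (rB.smul _)).mono (by linarith))
      (((rC.cols (row_one.smul _)).cols row_zero).mono (by linarith))).smul _).mono ?_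
    rw [half]; norm_num
  have h2 : Row (fromCols Y₀ Y₁)ᴴ (130 * g) := by
    have : (fromCols Y₀ Y₁)ᴴ = ((1 / 2 : ℝ) : 𝕜) • fromCols
        (fromRows (fromRows Mᴴ 0) (((-τ : ℝ) : 𝕜) • Bᴴ))
        (fromRows (fromRows Cᴴ (((-τ : ℝ) : 𝕜) • 1)) 0) := by
      rw [eY, conjTranspose_smul, conjTranspose_fromRows_eq_fromCols_conjTranspose]
      simp only [conjTranspose_fromCols_eq_fromRows_conjTranspose, conjTranspose_smul,
        conjTranspose_zero, conjTranspose_one, RCLike.star_def, RCLike.conj_ofReal]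
    rw [this]
    refine ((Row.cols (a := 65 * g) (b := 1)
      ((cM.rows (row_zero.mono (by linarith))).rows ((cB.smul _).mono (by nlinarith)))
      ((cC.rows ((row_one.smul _).mono (by linarith))).rows
        (row_zero.mono zero_le_one))).smul _).mono ?_
    rw [half]; linarith
  have h3 : Real.exp (-(35 * (g * Fintype.card ι))) ≤ ‖Y₀.det‖ := by
    rw [det_smul, det_fromBlocks_zero₁₂, det_smul, det_one, mul_one, norm_mul, norm_mul, norm_pow,
      norm_pow, RCLike.norm_ofReal, RCLike.norm_ofReal, half, abs_neg, abs_of_pos τ0,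
      hτ, ← Real.exp_nat_mul, show -(35 * (g * Fintype.card ι)) = -(2 * (g * Fintype.card ι)) +
        (-(g * Fintype.card ι) + Fintype.card ι * -(32 * g)) by ring, Real.exp_add, Real.exp_add]
    refine mul_le_mul ?_ (mul_le_mul_of_nonneg_right hdet (Real.exp_pos _).le) (by positivity)
      (by positivity)
    refine le_trans ?_ (pow_le_pow_left₀ (Real.exp_pos (-1)).le ?_ _)
    · rw [← Real.exp_nat_mul, Fintype.card_sum]
      push_cast
      exact Real.exp_le_exp.2 (by nlinarith)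
    · rw [Real.exp_neg, one_div]
      exact inv_anti₀ two_pos (by linarith [Real.add_one_le_exp 1])
  have h4 : Real.exp (-(70 * (g * Fintype.card ι))) ≤
      ‖(fromCols Y₀ Y₁ * (fromCols Y₀ Y₁)ᴴ).det‖ := by
    rw [conjTranspose_fromCols_eq_fromRows_conjTranspose, fromCols_mul_fromRows]
    refine le_trans ?_ (det_le Y₁ (norm_pos_iff.1 ((Real.exp_pos _).trans_le h3)))
    refine le_of_eq_of_le ?_ (pow_le_pow_left₀ (Real.exp_pos _).le h3 2)
    rw [sq, ← Real.exp_add]; congr 1; ring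
  have hU' : U * Uᴴ = 1 := mul_eq_one_comm.1 hU
  have eT : fromRows (fromRows (0 : Matrix ν ι 𝕜) U) 1 *
      (fromRows (fromRows (0 : Matrix ν ι 𝕜) U) 1)ᴴ =
      fromBlocks (fromBlocks 0 0 0 1) (fromRows 0 U) (fromCols 0 Uᴴ) 1 := by
    simp only [conjTranspose_fromRows_eq_fromCols_conjTranspose, fromRows_mul_fromCols, hU',
      conjTranspose_zero, conjTranspose_one, Matrix.mul_one, Matrix.one_mul, Matrix.zero_mul,
      Matrix.mul_zero]
  have r1 := Nat.le_ceil (Real.exp (2324 * g))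
  have r2 := Nat.ceil_lt_add_one (Real.exp_pos (2324 * g)).le
  set R := ⌈Real.exp (2324 * g)⌉₊
  refine (fun h5 => ?_ : _ → _) (key (T := fromRows (fromRows (0 : Matrix ν ι 𝕜) U) 1) (M * Z - B) S
    (a := 2304 * g) (ε := (64 * g)⁻¹) (c := 5 / 4) (R := R) h1 h2
    (by linarith) h4 (by linarith) (by positivity) ?_ μ0 (by norm_num) ?_ ?_ ?_)
  · simp only [Fintype.card_sum, Nat.cast_add] at h5
    have e1 : (16 * (M * Z - B).rank : ℝ) ≤ Fintype.card ι := by exact_mod_cast hr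
    have e2 : (16 * S.rank : ℝ) ≤ Fintype.card ι := by exact_mod_cast hS
    have e3 : (Fintype.card ι : ℝ) ≤ g * Fintype.card ι := le_mul_of_one_le_left n0.le hg
    have e4 : ((Fintype.card ν : ℝ) + Fintype.card ι + 70 * (g * Fintype.card ι)) / (2304 * g) ≤
        Fintype.card ι / 32 := by rw [div_le_iff₀ (by linarith)]; linarith
    have e5 : ((Fintype.card ν : ℝ) + Fintype.card ι) * (64 * g)⁻¹ ≤ Fintype.card ι / 32 := by
      rw [mul_inv_le_iff₀ (by linarith)]; linarith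
    have e6 : ((Fintype.card ν : ℝ) + Fintype.card ι + Fintype.card ι) * (2 ^ (R + R) * μ) ≤
        3 * (g * Fintype.card ι) * (2 ^ (R + R) * μ) :=
      mul_le_mul_of_nonneg_right (by linarith) (by positivity)
    have e7 : 1 ≤ 96 * g * 2 ^ (R + R) * μ := le_of_mul_le_mul_left (by linarith) n0
    refine e7.trans (mul_le_mul_of_nonneg_right ?_ μ0)
    have e8 := Real.add_one_le_exp (2324 * g)
    have e9 : (2 : ℝ) ^ (R + R) ≤ Real.exp (4 * Real.exp (2324 * g)) := by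
      refine (pow_le_pow_left₀ zero_le_two (by linarith [Real.add_one_le_exp 1] : 2 ≤ Real.exp 1)
        _).trans ?_
      rw [← Real.exp_nat_mul]
      push_cast
      exact Real.exp_le_exp.2 (by linarith)
    refine (mul_le_mul (by linarith [Real.add_one_le_exp (Real.exp (2324 * g))]) e9
      (by positivity) (Real.exp_pos (Real.exp (2324 * g))).le).trans ?_
    rw [← Real.exp_add, Real.exp_le_exp, show 2330 * g = 6 * g + 2324 * g by ring, Real.exp_add]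
    nlinarith [Real.add_one_le_exp (6 * g)]
  · have e1 := Real.pow_div_factorial_le_exp (20 * g) (by linarith) 4
    have e2 : Real.exp (2324 * g) * Real.exp (-(2304 * g)) = Real.exp (20 * g) := by
      rw [← Real.exp_add]; congr 1; ring
    have e3 := mul_le_mul_of_nonneg_right r1 (Real.exp_pos (-(2304 * g))).le
    have e4 : g ^ 2 ≤ g ^ 4 := pow_le_pow_right₀ hg (by norm_num)
    rw [le_inv_mul_iff₀ (by linarith)]
    norm_num [Nat.factorial] at e1 ⊢
    nlinarith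
  · rw [eT]; rintro ((i | i) | i) <;> simp
  · rw [eT]
    rintro ((i | i) | i) ((j | j) | j) h <;> simp at h <;> simp [μ0, hμ, h]
  · intro x x1 x2
    rw [sub_mulVec, sub_eq_zero, ← mulVec_mulVec] at x1
    refine ⟨Sum.elim (Sum.elim ((τ : 𝕜) • Z *ᵥ x) (C *ᵥ Z *ᵥ x)) x, ?_, fun t ht h => ?_⟩
    · rw [eY, smul_mulVec, fromRows_mulVec]
      simp only [fromCols_mulVec_sumElim, mulVec_smul, x1, smul_mulVec]
      simp
    · refine pair_le (v := (τ : 𝕜) • Z *ᵥ x) (a := C *ᵥ Z *ᵥ x) (nsq_unitary hU x) ?_ ?_ ht ?_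
      · refine le_of_eq_of_le ?_ (hS' x x2 x1)
        simp [nsq, mul_pow, mul_sum]
      · simpa [sub_mulVec] using hx x
      · rw [nsq_elim, nsq_elim] at h
        refine le_of_eq_of_le ?_ h
        simp [fromRows_mulVec, Function.star_sumElim]

end Pool.Agent.MP_5daf37_lc.BN
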