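import Pool.Agent.MP_5daf37_lc.Defs
import Pool.Agent.MP_5daf37_lc.BN.Core

/-!
The realization attached to a circuit.
-/

open Matrix Finset

namespace Pool.Agent.MP_5daf37_lc.BN

variable {𝕜 : Type} [RCLike 𝕜] {κ ν : Type} [Fintype κ] {n m p q : ℕ}

theorem rank_add_le' (A B : Matrix ν κ 𝕜) : (A + B).rank ≤ A.rank + B.rank := by
  rw [rank, rank, rank, mulVecLin_add]
  exact (Submodule.finrank_mono (LinearMap.range_add_le _ _)).trans
    (Submodule.finrank_add_le_finrank_add_finrank _ _)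

theorem exists_good [Fintype ν] [DecidableEq κ] {X : Matrix ν κ 𝕜} (h : Row X 1) {D : ℝ}
    (hD : 0 ≤ D) : ∃ X' : Matrix ν κ 𝕜, (∀ i j, ‖X' i j‖ ≤ ‖X i j‖) ∧ Row X'ᴴ D ∧
      (X - X').rank * D ≤ Fintype.card ν := by
  refine ⟨of fun i j => if D < ∑ i, ‖X i j‖ then 0 else X i j, fun i j => ?_, fun j => ?_, ?_⟩
  · rw [of_apply]; split_ifs <;> simp
  · by_cases e : D < ∑ i, ‖X i j‖
    · simp [e, hD]
    · simpa [e] using not_lt.1 e
  · have e : X - of (fun i j => if D < ∑ i, ‖X i j‖ then 0 else X i j) =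
        X * diagonal fun j => if D < ∑ i, ‖X i j‖ then (1 : 𝕜) else 0 := by
      ext i j; rw [mul_diagonal, Matrix.sub_apply, of_apply]; split_ifs <;> simp
    have h2 := rank_mul_le_right X (diagonal fun j => if D < ∑ i, ‖X i j‖ then (1 : 𝕜) else 0)
    rw [rank_diagonal, Fintype.card_subtype, ← e] at h2
    simp only [ne_eq, ite_eq_right_iff, one_ne_zero, imp_false, not_not] at h2
    refine (mul_le_mul_of_nonneg_right (Nat.cast_le.2 h2) hD).trans ?_
    rw [← nsmul_eq_mul]
    refine (card_nsmul_le_sum _ (fun j => ∑ i, ‖X i j‖) D fun j hj => (mem_filter.1 hj).2.le).trans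
      ((sum_le_sum_of_subset_of_nonneg (subset_univ _) fun j _ _ =>
        sum_nonneg fun _ _ => norm_nonneg _).trans ?_)
    rw [sum_comm]
    exact (sum_le_sum fun i _ => h i).trans (by simp)

theorem det_one_sub (C : Circuit 𝕜 n p q) (W : Matrix (Fin p) (Fin p) 𝕜)
    (h : ∀ v u, W v u ≠ 0 → ∃ e, C.tail e = u ∧ C.head e = v) : (1 - W).det = 1 := by
  classical
  let r : Fin p → Fin p → Prop := Relation.TransGen fun a b => ∃ e, C.tail e = a ∧ C.head e = b
  let ρ : Fin p → ℕ := fun v => (univ.filter fun u => r u v).card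
  have h0 : ∀ v u, ρ v ≤ ρ u → W v u = 0 := fun v u h' => by
    by_contra h1
    have h1 : r u v := Relation.TransGen.single (h v u h1)
    refine absurd h' (not_le.2 (card_lt_card ⟨fun u hu => ?_, fun h => ?_⟩))
    · simp only [mem_filter, mem_univ, true_and] at hu ⊢
      exact hu.trans h1
    · exact C.acyclic _ (mem_filter.1 (h (mem_filter.2 ⟨mem_univ _, h1⟩))).2
  have hb : BlockTriangular (1 - W)ᵀ ρ := fun u v h => by
    have : v ≠ u := fun e => by rw [e] at h; exact lt_irrefl _ h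
    rw [transpose_apply, Matrix.sub_apply, h0 v u h.le, one_apply_ne this, sub_zero]
  rw [← det_transpose, hb.det]
  refine prod_eq_one fun a _ => ?_
  have : (1 - W)ᵀ.toSquareBlock ρ a = 1 := by
    ext u v
    rw [toSquareBlock_def, of_apply, transpose_apply, Matrix.sub_apply,
      h0 _ _ (v.2.trans u.2.symm).le, sub_zero]
    simp [one_apply, Subtype.ext_iff, eq_comm]
  rw [this, det_one]

/-- The weighted adjacency matrix. -/
def Wm (C : Circuit 𝕜 n p q) (w : Fin q → 𝕜) : Matrix (Fin p) (Fin p) 𝕜 :=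
  of fun v u => ∑ e, if C.head e = v ∧ C.tail e = u then w e else 0

theorem Wm_mulVec (C : Circuit 𝕜 n p q) (w : Fin q → 𝕜) (val : Fin p → 𝕜) (v : Fin p) :
    ∑ u, Wm C w v u * val u = ∑ e with C.head e = v, w e * val (C.tail e) := by
  simp only [Wm, of_apply, sum_mul]
  rw [sum_comm, sum_filter]
  refine sum_congr rfl fun e _ => ?_
  by_cases h : C.head e = v <;> simp [h]

theorem Wm_row (C : Circuit 𝕜 n p q) (w : Fin q → 𝕜) (v : Fin p) :
    ∑ u, ‖Wm C w v u‖ ≤ ∑ e with C.head e = v, ‖w e‖ := by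
  refine (sum_le_sum fun u _ => norm_sum_le univ fun e =>
    if C.head e = v ∧ C.tail e = u then w e else 0).trans_eq ?_
  rw [sum_comm, sum_filter]
  refine sum_congr rfl fun e _ => ?_
  by_cases h : C.head e = v <;> simp [h, apply_ite]

theorem rank_Wm_sub (C : Circuit 𝕜 n p q) (w w' : Fin q → 𝕜)
    (E : Finset (Fin q)) (h : ∀ e, e ∉ E → w' e = w e) : (Wm C w' - Wm C w).rank ≤ E.card := by
  let X : Matrix (Fin p) E 𝕜 := of fun v e => if C.head e = v then w' e - w e else 0
  let Y : Matrix E (Fin p) 𝕜 := of fun e u => if C.tail e = u then 1 else 0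
  have e1 : Wm C w' - Wm C w = X * Y := by
    ext v u
    simp only [Wm, X, Y, Matrix.sub_apply, mul_apply, of_apply, ← sum_sub_distrib]
    rw [sum_coe_sort E fun e =>
      (if C.head e = v then w' e - w e else 0) * if C.tail e = u then (1 : 𝕜) else 0]
    symm
    refine sum_subset_zero_on_sdiff (subset_univ E) (fun e he => ?_) fun e _ => ?_
    · rw [h e (mem_sdiff.1 he).2, sub_self]
    · by_cases h1 : C.head e = v <;> by_cases h2 : C.tail e = u <;> simp [h1, h2]
  rw [e1]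
  exact (rank_mul_le_left _ _).trans ((rank_le_card_width _).trans (Fintype.card_coe E).le)

theorem row_ite {ι : Type} [DecidableEq ι] {f : κ → ι} (hf : Function.Injective f) {X : Matrix ν κ 𝕜}
    (g : ν → ι) (h : ∀ i j, ‖X i j‖ ≤ if g i = f j then 1 else 0) : Row X 1 := fun i => by
  refine (sum_le_sum fun j _ => h i j).trans ?_
  rw [sum_boole, Nat.cast_le_one, card_le_one]
  exact fun a ha b hb => hf ((mem_filter.1 ha).2.symm.trans (mem_filter.1 hb).2)

theorem main (C : Circuit 𝕜 n p q) (A : Matrix (Fin n) (Fin n) 𝕜) (hC : C.Computes A)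
    (r c : Fin m → Fin n) (U : Matrix (Fin m) (Fin m) 𝕜) (hU : Uᴴ * U = 1) (μ : ℝ) (hμ1 : μ < 1)
    (hμ : ∀ i j, ‖U i j‖ ≤ μ) (hx : ∀ x, 64 * nsq ((A.submatrix r c - U) *ᵥ x) ≤ nsq x)
    (E : Finset (Fin q)) (hE : 32 * E.card ≤ m) :
    m * Real.log (Real.log μ⁻¹) ≤
      2330 * ∑ v, Real.logb 2 (2 + ∑ e with e ∉ E ∧ C.head e = v, ‖C.weight e‖) := by
  set ρ : Fin p → ℝ := fun v => 2 + ∑ e with e ∉ E ∧ C.head e = v, ‖C.weight e‖ with hρ
  have ρ2 : ∀ v, 2 ≤ ρ v := fun v => le_add_of_nonneg_right (sum_nonneg fun _ _ => norm_nonneg _)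
  have ρ0 : ∀ v, 0 < ρ v := fun v => two_pos.trans_le (ρ2 v)
  have hp : (p : ℝ) ≤ ∑ v, Real.logb 2 (ρ v) := by
    refine le_trans (by simp) (sum_le_sum (f := fun _ => 1) fun v _ =>
      (Real.le_logb_iff_rpow_le one_lt_two (ρ0 v)).2 (by simpa using ρ2 v))
  change _ ≤ 2330 * ∑ v, Real.logb 2 (ρ v)
  set Φ := ∑ v, Real.logb 2 (ρ v) with hΦ
  rcases m.eq_zero_or_pos with rfl | m0
  · simpa using (Nat.cast_nonneg p).trans hp
  have : Nonempty (Fin m) := ⟨⟨0, m0⟩⟩
  have m1 : (0 : ℝ) < m := by exact_mod_cast m0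
  have hdet : (A.submatrix r c).det ≠ 0 := fun h => by
    obtain ⟨x, x0, x1⟩ := exists_mulVec_eq_zero_iff.2 h
    have h1 := hx x
    have h2 : nsq (-(U *ᵥ x)) = nsq x := by rw [← nsq_unitary hU x]; simp [nsq]
    rw [sub_mulVec, x1, zero_sub, h2] at h1
    linarith [nsq_pos x0]
  choose val h1 h2 h3 using fun j => hC (Pi.single (c j) 1)
  let Z : Matrix (Fin p) (Fin m) 𝕜 := of fun v j => val j v
  let B : Matrix (Fin p) (Fin m) 𝕜 :=
    of fun v j => if (∀ e, C.head e ≠ v) ∧ C.label v = c j then 1 else 0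
  let O : Matrix (Fin m) (Fin p) 𝕜 := of fun i v => if C.output (r i) = v then 1 else 0
  have e1 : Z = Wm C C.weight * Z + B := by
    ext v j
    rw [Matrix.add_apply, mul_apply]
    simp only [Z, B, of_apply]
    rw [Wm_mulVec]
    by_cases hv : ∀ e, C.head e ≠ v
    · rw [h1 j v hv, sum_eq_zero fun e he => absurd (mem_filter.1 he).2 (hv e), zero_add,
        Pi.single_apply]
      simp [hv]
    · rw [if_neg fun h' => hv h'.1, ← h2 j v (by simpa using hv), add_zero]
  have e2 : O * Z = A.submatrix r c := by ext i j; simp [mul_apply, O, Z, h3]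
  have i1 : Function.Injective c := fun i j h => by
    by_contra h'
    exact hdet (det_zero_of_column_eq h' fun k => by simp [h])
  have i2 : Function.Injective fun i => C.output (r i) := fun i j h => by
    by_contra h'
    refine hdet (det_zero_of_row_eq h' ?_)
    rw [← e2]; ext k; simp only [mul_apply, O, of_apply, h]
  have hm : (m : ℝ) ≤ p := by simpa using Fintype.card_le_of_injective _ i2
  obtain ⟨g, hg⟩ : ∃ g, Φ = g * m := ⟨Φ / m, (div_mul_cancel₀ _ m1.ne').symm⟩
  have g1 : 1 ≤ g := le_of_mul_le_mul_right (by linarith) m1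
  let w : Fin q → 𝕜 := fun e => if e ∈ E then 0 else C.weight e
  let Δ : Matrix (Fin p) (Fin p) 𝕜 := diagonal fun v => (((ρ v)⁻¹ : ℝ) : 𝕜)
  have nΔ : ∀ {κ : Type} (X : Matrix (Fin p) κ 𝕜) v u, ‖(Δ * X) v u‖ = (ρ v)⁻¹ * ‖X v u‖ :=
    fun X v u => by rw [diagonal_mul, norm_mul, RCLike.norm_ofReal, abs_of_pos (inv_pos.2 (ρ0 v))]
  have ρ1 : ∀ v, (ρ v)⁻¹ ≤ 1 := fun v => inv_le_one_of_one_le₀ (by linarith [ρ2 v])
  have r0 : ∀ v, (ρ v)⁻¹ + ∑ u, ‖(Δ * Wm C w) v u‖ ≤ 1 := fun v => by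
    have : ∑ e with C.head e = v, ‖w e‖ = ρ v - 2 := by
      simp only [hρ, add_sub_cancel_left, sum_filter, w]
      exact sum_congr rfl fun e _ => by by_cases h : e ∈ E <;> simp [h]
    simp only [nΔ]
    rw [← mul_sum, ← mul_one_add, inv_mul_le_iff₀ (ρ0 v)]
    linarith [Wm_row C w v]
  have r1 : Row (Δ * B) 1 := row_ite i1 C.label fun v j => by
    rw [nΔ]
    refine (mul_le_of_le_one_left (norm_nonneg _) (ρ1 v)).trans ?_
    by_cases h : C.label v = c j
    · simp only [B, of_apply, if_pos h]; split_ifs <;> simp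
    · simp [B, h]
  obtain ⟨X, x1, x2, x3⟩ := exists_good (X := Δ * Wm C w)
    (fun v => by linarith [r0 v, inv_pos.2 (ρ0 v)]) (by linarith : 0 ≤ 64 * g)
  obtain ⟨Y, y1, y2, y3⟩ := exists_good r1 (by linarith : 0 ≤ 64 * g)
  have d1 : ∀ v, ∑ u, ‖Δ v u‖ = (ρ v)⁻¹ := fun v => by
    rw [← Matrix.mul_one Δ]; simp only [nΔ]; simp [one_apply, apply_ite]
  have d2 : Δᴴ = Δ := by simp [Δ, diagonal_conjTranspose]
  refine (fun h : 1 ≤ Real.exp (Real.exp (2330 * g)) * μ => ?_)
    (core (M := Δ - X) (B := Y) (Z := Z) (C := O) (U := U) g1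
    (fun v => ((sum_le_sum fun u _ => (norm_sub_le (Δ v u) (X v u)).trans
      (add_le_add_right (x1 v u) _)).trans_eq (by rw [sum_add_distrib, d1])).trans (r0 v))
    (fun v => (sum_le_sum fun j _ => y1 v j).trans (r1 v))
    (row_ite Function.injective_id (fun i => C.output (r i)) fun i v => by
      simp only [O, of_apply, id]; split_ifs <;> simp)
    (fun v => by
      rw [conjTranspose_sub, d2]
      exact ((sum_le_sum fun u _ => norm_sub_le (Δ v u) (Xᴴ v u)).trans_eq
        (by rw [sum_add_distrib, d1])).trans (by linarith [x2 v, ρ1 v]))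
    (y2.mono (by linarith))
    (row_ite i2 id fun v i => by
      simp only [O, conjTranspose_apply, norm_star, of_apply, id, eq_comm (a := v)]
      split_ifs <;> simp)
    (by simpa [hg] using hp) ?_ hU hμ ?_ (by rwa [e2]))
  · have μ0 : 0 < μ := (mul_pos_iff_of_pos_left (Real.exp_pos _)).1 (zero_lt_one.trans_le h)
    have h4 : 0 < Real.log μ⁻¹ := Real.log_pos ((one_lt_inv₀ μ0).2 hμ1)
    have h5 : Real.log (Real.log μ⁻¹) ≤ 2330 * g := by
      rwa [Real.log_le_iff_le_exp h4, Real.log_le_iff_le_exp (inv_pos.2 μ0), inv_le_iff_one_le_mul₀ μ0]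
    rw [hg]
    nlinarith
  · have e3 : Δ - X = Δ * (1 - diagonal (fun v => ((ρ v : ℝ) : 𝕜)) * X) := by
      rw [Matrix.mul_sub, Matrix.mul_one, ← Matrix.mul_assoc, diagonal_mul_diagonal]
      simp [fun v => (ρ0 v).ne']
    rw [e3, det_mul, det_one_sub C _ fun v u h => ?_, mul_one, det_diagonal, norm_prod,
      Fintype.card_fin, ← hg, hΦ, ← sum_neg_distrib, Real.exp_sum]
    · refine prod_le_prod (fun v _ => (Real.exp_pos _).le) fun v _ => ?_
      rw [RCLike.norm_ofReal, abs_of_pos (inv_pos.2 (ρ0 v)), Real.exp_neg]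
      refine inv_anti₀ (ρ0 v) ((Real.log_le_iff_le_exp (ρ0 v)).1 ?_)
      rw [Real.logb, le_div_iff₀ (Real.log_pos one_lt_two)]
      exact mul_le_of_le_one_right (Real.log_nonneg (by linarith [ρ2 v]))
        (by linarith [Real.log_le_sub_one_of_pos two_pos])
    · by_contra h'
      have h6 := x1 v u
      rw [nΔ, Wm, of_apply, sum_eq_zero fun e _ => if_neg fun h => h' ⟨e, h.2, h.1⟩, norm_zero,
        mul_zero, norm_le_zero_iff] at h6
      exact h (by rw [diagonal_mul, h6, mul_zero])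
  · have e3 : (Δ - X) * Z - Y =
        Δ * (Wm C C.weight - Wm C w) * Z + (Δ * Wm C w - X) * Z + (Δ * B - Y) := by
      have : Δ * Z = Δ * Wm C C.weight * Z + Δ * B := by
        rw [Matrix.mul_assoc, ← Matrix.mul_add, ← e1]
      simp only [Matrix.mul_sub, Matrix.sub_mul, this]; abel
    have k1 := (rank_mul_le_left (Δ * (Wm C C.weight - Wm C w)) Z).trans
      ((rank_mul_le_right _ _).trans (rank_Wm_sub C w C.weight E fun e he => by simp [w, he]))
    have k2 := rank_mul_le_left (Δ * Wm C w - X) Z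
    have k3 : ∀ k : ℕ, k * (64 * g) ≤ Fintype.card (Fin p) → 64 * k ≤ m := fun k hk => by
      rw [Fintype.card_fin] at hk
      have : (64 * k : ℝ) ≤ m := le_of_mul_le_mul_left (by linarith) (by linarith : 0 < g)
      exact_mod_cast this
    have k4 := rank_add_le' (Δ * (Wm C C.weight - Wm C w) * Z) ((Δ * Wm C w - X) * Z)
    have k5 := (congrArg rank e3).trans_le (rank_add_le' _ _)
    have := k3 _ x3
    have := k3 _ y3
    rw [Fintype.card_fin]
    omega

end Pool.Agent.MP_5daf37_lc.BN
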