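import Mathlib

/-!
Singular values, row sums and traces of powers.
-/

open Matrix Finset

namespace Pool.Agent.MP_5daf37_lc.BN

variable {𝕜 : Type} [RCLike 𝕜] {l m n : Type} [Fintype l] [Fintype m] [Fintype n]

/-- The squared Euclidean norm. -/
noncomputable def nsq (v : m → 𝕜) : ℝ := ∑ i, ‖v i‖ ^ 2

/-- All rows have `l1` norm at most `c`. -/
def Row (A : Matrix m n 𝕜) (c : ℝ) : Prop := ∀ i, ∑ j, ‖A i j‖ ≤ c

theorem nsq_nonneg (v : m → 𝕜) : 0 ≤ nsq v := sum_nonneg fun _ _ => sq_nonneg _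

theorem nsq_eq (v : m → 𝕜) : (nsq v : 𝕜) = star v ⬝ᵥ v := by
  simp [nsq, dotProduct, RCLike.conj_mul]

theorem nsq_pos {v : m → 𝕜} (h : v ≠ 0) : 0 < nsq v := by
  obtain ⟨i, hi⟩ := Function.ne_iff.1 h
  exact sum_pos' (fun _ _ => sq_nonneg _) ⟨i, mem_univ _, pow_pos (norm_pos_iff.2 hi) 2⟩

theorem nsq_mulVec (A : Matrix m n 𝕜) (v : n → 𝕜) :
    (nsq (A *ᵥ v) : 𝕜) = star v ⬝ᵥ (Aᴴ * A) *ᵥ v := by
  rw [nsq_eq, star_mulVec, ← dotProduct_mulVec, mulVec_mulVec]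

theorem nsq_unitary [DecidableEq n] {A : Matrix m n 𝕜} (h : Aᴴ * A = 1) (v : n → 𝕜) :
    nsq (A *ᵥ v) = nsq v := by
  apply RCLike.ofReal_injective (K := 𝕜)
  rw [nsq_mulVec, h, one_mulVec, nsq_eq]

theorem cauchy (u v : m → 𝕜) : ‖star u ⬝ᵥ v‖ ^ 2 ≤ nsq u * nsq v := by
  refine le_trans (pow_le_pow_left₀ (norm_nonneg _) ?_ 2) (sum_mul_sq_le_sq_mul_sq _ _ _)
  exact (norm_sum_le _ _).trans (by simp)

omit [Fintype l] in
theorem Row.mul {A : Matrix l m 𝕜} {B : Matrix m n 𝕜} {a b : ℝ} (hA : Row A a) (hB : Row B b)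
    (hb : 0 ≤ b) : Row (A * B) (a * b) := fun i =>
  calc ∑ k, ‖(A * B) i k‖ ≤ ∑ k, ∑ j, ‖A i j‖ * ‖B j k‖ :=
        sum_le_sum fun k _ => (norm_sum_le _ _).trans (by simp)
    _ = ∑ j, ‖A i j‖ * ∑ k, ‖B j k‖ := by rw [sum_comm]; simp only [mul_sum]
    _ ≤ ∑ j, ‖A i j‖ * b := sum_le_sum fun j _ => mul_le_mul_of_nonneg_left (hB j) (norm_nonneg _)
    _ ≤ a * b := by rw [← sum_mul]; exact mul_le_mul_of_nonneg_right (hA i) hb

theorem row_one [DecidableEq m] : Row (1 : Matrix m m 𝕜) 1 := fun i => by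
  simp [one_apply, apply_ite]

theorem Row.pow [DecidableEq m] {A : Matrix m m 𝕜} {a : ℝ} (hA : Row A a) (ha : 0 ≤ a) (k : ℕ) :
    Row (A ^ k) (a ^ k) := by
  induction k with
  | zero => simpa using row_one
  | succ k ih => rw [pow_succ, pow_succ]; exact ih.mul hA ha

theorem Row.trace_le {A : Matrix m n 𝕜} (h : Row A 1) :
    RCLike.re (A * Aᴴ).trace ≤ Fintype.card m := by
  have : ∀ i, RCLike.re ((A * Aᴴ) i i) ≤ 1 := fun i => by
    have h1 : RCLike.re ((A * Aᴴ) i i) = ∑ j, ‖A i j‖ ^ 2 := by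
      rw [mul_apply, map_sum]
      refine sum_congr rfl fun j _ => ?_
      rw [conjTranspose_apply, RCLike.star_def, RCLike.mul_conj, ← RCLike.ofReal_pow,
        RCLike.ofReal_re]
    rw [h1]
    exact (sum_sq_le_sq_sum_of_nonneg fun _ _ => norm_nonneg _).trans
      (pow_le_one₀ (sum_nonneg fun _ _ => norm_nonneg _) (h i))
  rw [trace, map_sum]
  exact (sum_le_sum fun i _ => this i).trans (by simp)

/-- A unitary diagonalization of `G`. -/
structure Dg [DecidableEq m] (G V : Matrix m m 𝕜) (d : m → ℝ) : Prop where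
  h1 : Vᴴ * V = 1
  h2 : V * Vᴴ = 1
  h3 : ∀ i, 0 ≤ d i
  h4 : G = V * diagonal (fun i => (d i : 𝕜)) * Vᴴ

theorem exists_dg [DecidableEq m] (Y : Matrix m n 𝕜) : ∃ V d, Dg (Y * Yᴴ) V d := by
  have h := isHermitian_mul_conjTranspose_self Y
  refine ⟨h.eigenvectorUnitary, h.eigenvalues, ?_, ?_,
    eigenvalues_self_mul_conjTranspose_nonneg Y, ?_⟩
  · exact h.eigenvectorUnitary.2.1
  · exact h.eigenvectorUnitary.2.2
  · exact h.spectral_theorem

namespace Dg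

variable [DecidableEq m] {G V : Matrix m m 𝕜} {d : m → ℝ} (h : Dg G V d)
include h

theorem trace_conj (e : m → 𝕜) : (V * diagonal e * Vᴴ).trace = ∑ i, e i := by
  rw [trace_mul_cycle, h.h1, Matrix.one_mul, trace_diagonal]

theorem det_conj (e : m → 𝕜) : (V * diagonal e * Vᴴ).det = ∏ i, e i := by
  rw [det_mul, det_mul, mul_right_comm, ← det_mul, h.h2, det_one, one_mul, det_diagonal]

theorem trace_eq : RCLike.re G.trace = ∑ i, d i := by
  rw [h.h4, h.trace_conj, ← RCLike.ofReal_sum, RCLike.ofReal_re]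

theorem det_eq : ‖G.det‖ = ∏ i, d i := by
  rw [h.h4, h.det_conj, norm_prod]
  exact prod_congr rfl fun i _ => by rw [RCLike.norm_ofReal, abs_of_nonneg (h.h3 i)]

theorem one_add (c : ℝ) : 1 + (c : 𝕜) • G = V * diagonal (fun i => ((1 + c * d i : ℝ) : 𝕜)) * Vᴴ := by
  have : diagonal (fun i => ((1 + c * d i : ℝ) : 𝕜)) = 1 + (c : 𝕜) • diagonal fun i => (d i : 𝕜) := by
    ext i j; by_cases e : i = j <;> simp [e]
  rw [this, Matrix.mul_add, Matrix.add_mul, Matrix.mul_one, h.h2, Matrix.mul_smul, Matrix.smul_mul,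
    ← h.h4]

theorem trace_pow (c : ℝ) (k : ℕ) :
    RCLike.re ((1 + (c : 𝕜) • G) ^ k).trace = ∑ i, (1 + c * d i) ^ k := by
  have : (1 + (c : 𝕜) • G) ^ k = V * diagonal (fun i => (((1 + c * d i) ^ k : ℝ) : 𝕜)) * Vᴴ := by
    induction k with
    | zero => simp [h.h2]
    | succ k ih =>
      rw [pow_succ, ih, h.one_add]
      simp only [Matrix.mul_assoc]
      rw [← Matrix.mul_assoc Vᴴ, h.h1, Matrix.one_mul, ← Matrix.mul_assoc (diagonal _),
        diagonal_mul_diagonal]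
      simp [pow_succ]
  rw [this, h.trace_conj, ← RCLike.ofReal_sum, RCLike.ofReal_re]

theorem le_of_row {c : ℝ} (hc : Row G c) (i : m) : d i ≤ c := by
  obtain ⟨a, -, ha⟩ := exists_max_image univ (fun a => ‖V a i‖) ⟨i, mem_univ _⟩
  have h0 : 0 < ‖V a i‖ := by
    by_contra h0
    have h1 : ∀ b, V b i = 0 := fun b => norm_le_zero_iff.1 ((ha b (mem_univ _)).trans (not_lt.1 h0))
    have := congrFun (congrFun h.h1 i) i
    simp [mul_apply, h1] at this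
  have h1 : (G * V) a i = V a i * d i := by
    rw [h.h4, Matrix.mul_assoc, h.h1, Matrix.mul_one, mul_diagonal]
  refine le_of_mul_le_mul_left ?_ h0
  calc ‖V a i‖ * d i = ‖(G * V) a i‖ := by
        rw [h1, norm_mul, RCLike.norm_ofReal, abs_of_nonneg (h.h3 i)]
    _ ≤ ∑ b, ‖G a b‖ * ‖V a i‖ := (norm_sum_le _ _).trans (sum_le_sum fun b _ => by
        rw [norm_mul]; exact mul_le_mul_of_nonneg_left (ha b (mem_univ _)) (norm_nonneg _))
    _ ≤ ‖V a i‖ * c := by rw [← sum_mul, mul_comm]; exact mul_le_mul_of_nonneg_left (hc a) h0.le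

omit h in
theorem nsq_mulVec_eq {A : Matrix n m 𝕜} (h : Dg (Aᴴ * Aᴴᴴ) V d) (v : m → 𝕜) :
    nsq (A *ᵥ v) = ∑ i, d i * ‖(Vᴴ *ᵥ v) i‖ ^ 2 := by
  apply RCLike.ofReal_injective (K := 𝕜)
  have := h.h4
  rw [conjTranspose_conjTranspose] at this
  rw [nsq_mulVec, this, ← mulVec_mulVec, ← mulVec_mulVec, dotProduct_mulVec,
    ← conjTranspose_conjTranspose V, ← star_mulVec, conjTranspose_conjTranspose]
  simp only [dotProduct, mulVec_diagonal, Pi.star_apply]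
  push_cast
  exact sum_congr rfl fun i _ => by rw [mul_left_comm, RCLike.star_def, RCLike.conj_mul]

end Dg

theorem count {d : m → ℝ} (h0 : ∀ i, 0 ≤ d i) {N Ψ a : ℝ} (h1 : ∑ i, d i ≤ N)
    (h2 : Real.exp (-Ψ) ≤ ∏ i, d i) :
    (univ.filter fun i => d i < Real.exp (-a)).card * a ≤ N + Ψ := by
  have hp : ∀ i, d i ≠ 0 := fun i e =>
    absurd (h2.trans_eq (prod_eq_zero (mem_univ i) e)) (not_le.2 (Real.exp_pos _))
  have h3 := (Real.le_log_iff_exp_le ((Real.exp_pos _).trans_le h2)).2 h2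
  rw [Real.log_prod fun i _ => hp i] at h3
  have h4 : ∑ i, (if d i < Real.exp (-a) then a else 0) ≤ ∑ i, (d i - Real.log (d i)) :=
    sum_le_sum fun i _ => by
      have h5 := (h0 i).lt_of_ne' (hp i)
      split_ifs with h
      · have := (Real.log_lt_iff_lt_exp h5).2 h
        linarith
      · linarith [Real.log_le_sub_one_of_pos h5]
  rw [← sum_filter, sum_const, nsmul_eq_mul, sum_sub_distrib] at h4
  linarith

theorem nsq_le_of_row [DecidableEq n] {B : Matrix m n 𝕜} {c : ℝ} (h1 : Row B 1) (h2 : Row Bᴴ c)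
    (x : n → 𝕜) : nsq (B *ᵥ x) ≤ c * nsq x := by
  obtain ⟨V, d, h⟩ := exists_dg Bᴴ
  have h3 : Row (Bᴴ * Bᴴᴴ) c := by simpa using h2.mul h1 zero_le_one
  rw [h.nsq_mulVec_eq, ← nsq_unitary (A := Vᴴ) (by simpa using h.h2) x, nsq, mul_sum]
  exact sum_le_sum fun i _ => mul_le_mul_of_nonneg_right (h.le_of_row h3 i) (sq_nonneg _)

omit [Fintype l] [Fintype m] in
theorem exists_ker {k : Type} (A : Matrix k n 𝕜) (B : Matrix l n 𝕜) (C : Matrix m n 𝕜)
    (h : A.rank + B.rank + C.rank < Fintype.card n) :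
    ∃ x, x ≠ 0 ∧ A *ᵥ x = 0 ∧ B *ᵥ x = 0 ∧ C *ᵥ x = 0 := by
  have h1 := A.mulVecLin.finrank_range_add_finrank_ker
  have h2 := B.mulVecLin.finrank_range_add_finrank_ker
  have h3 := C.mulVecLin.finrank_range_add_finrank_ker
  have h4 := Submodule.finrank_sup_add_finrank_inf_eq B.mulVecLin.ker C.mulVecLin.ker
  have h5 := Submodule.finrank_sup_add_finrank_inf_eq A.mulVecLin.ker
    (B.mulVecLin.ker ⊓ C.mulVecLin.ker)
  have h6 := (B.mulVecLin.ker ⊔ C.mulVecLin.ker).finrank_le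
  have h7 := (A.mulVecLin.ker ⊔ B.mulVecLin.ker ⊓ C.mulVecLin.ker).finrank_le
  rw [Module.finrank_fintype_fun_eq_card] at h1 h2 h3 h6 h7
  unfold Matrix.rank at h
  obtain ⟨x, hx, h0⟩ := Submodule.exists_mem_ne_zero_of_ne_bot
    (p := A.mulVecLin.ker ⊓ (B.mulVecLin.ker ⊓ C.mulVecLin.ker)) fun e => by
      rw [e, finrank_bot] at h5
      omega
  exact ⟨x, h0, hx.1, hx.2.1, hx.2.2⟩

/-- A lower bound on a large subspace gives a lower bound for the trace. -/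
theorem le_trace [DecidableEq n] {k : Type} (Z : Matrix k n 𝕜) [Fintype k] (A : Matrix l n 𝕜)
    (B : Matrix m n 𝕜) {c : ℝ} (hc : 0 ≤ c)
    (h : ∀ x, A *ᵥ x = 0 → B *ᵥ x = 0 → c * nsq x ≤ nsq (Z *ᵥ x)) :
    c * (Fintype.card n - A.rank - B.rank) ≤ RCLike.re (Zᴴ * Z).trace := by
  obtain ⟨V, d, hd⟩ := exists_dg Zᴴ
  have h1 := hd.trace_eq
  rw [conjTranspose_conjTranspose] at h1
  let J := univ.filter fun i => c ≤ d i
  have h2 : Fintype.card n ≤ A.rank + B.rank + J.card := by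
    by_contra h2
    obtain ⟨x, x0, x1, x2, x3⟩ := exists_ker A B (Vᴴ.submatrix ((↑) : J → n) id)
      (lt_of_le_of_lt (Nat.add_le_add_left ((rank_le_card_height _).trans (by simp)) _)
        (not_le.1 h2))
    have h3 := h x x1 x2
    have h4 : nsq (Vᴴ *ᵥ x) = nsq x := nsq_unitary (by simpa using hd.h2) x
    obtain ⟨i, hi⟩ := Function.ne_iff.1 fun e : Vᴴ *ᵥ x = 0 =>
      (nsq_pos x0).ne' (by rw [← h4, e]; simp [nsq])
    have h5 : ∀ j, (Vᴴ *ᵥ x) j ≠ 0 → d j < c := fun j hj => not_le.1 fun e =>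
      hj (congrFun x3 ⟨j, mem_filter.2 ⟨mem_univ _, e⟩⟩)
    rw [hd.nsq_mulVec_eq, ← h4, nsq, mul_sum] at h3
    refine absurd h3 (not_le.2 (sum_lt_sum (fun j _ => ?_) ⟨i, mem_univ _, ?_⟩))
    · by_cases hj : (Vᴴ *ᵥ x) j = 0
      · simp [hj]
      · exact mul_le_mul_of_nonneg_right (h5 j hj).le (sq_nonneg _)
    · exact mul_lt_mul_of_pos_right (h5 i hi) (pow_pos (norm_pos_iff.2 hi) 2)
  have h3 : (Fintype.card n : ℝ) ≤ A.rank + B.rank + J.card := by exact_mod_cast h2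
  have h4 : J.card * c ≤ ∑ i, d i := by
    rw [← nsmul_eq_mul]
    exact (card_nsmul_le_sum J d c fun i hi => (mem_filter.1 hi).2).trans
      (sum_le_sum_of_subset_of_nonneg (subset_univ _) fun i _ _ => hd.h3 i)
  rw [h1]
  nlinarith

theorem det_le [DecidableEq m] {Y₀ : Matrix m m 𝕜} (Y₁ : Matrix m n 𝕜) (h : Y₀.det ≠ 0) :
    ‖Y₀.det‖ ^ 2 ≤ ‖(Y₀ * Y₀ᴴ + Y₁ * Y₁ᴴ).det‖ := by
  obtain ⟨V, d, hd⟩ := exists_dg (Y₀⁻¹ * Y₁)
  have h1 : Y₀ * (Y₀⁻¹ * Y₁) = Y₁ := by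
    rw [← Matrix.mul_assoc, mul_nonsing_inv _ h.isUnit, Matrix.one_mul]
  have h2 : Y₀ * Y₀ᴴ + Y₁ * Y₁ᴴ =
      Y₀ * (1 + ((1 : ℝ) : 𝕜) • (Y₀⁻¹ * Y₁ * (Y₀⁻¹ * Y₁)ᴴ)) * Y₀ᴴ := by
    rw [RCLike.ofReal_one, one_smul, Matrix.mul_add, Matrix.add_mul, Matrix.mul_one,
      ← Matrix.mul_assoc, h1, Matrix.mul_assoc Y₁, ← conjTranspose_mul, h1]
  rw [h2, hd.one_add, det_mul, det_mul, hd.det_conj, det_conjTranspose, norm_mul, norm_mul,
    norm_star, mul_right_comm, ← sq, norm_prod]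
  refine le_mul_of_one_le_right (sq_nonneg _) (one_le_prod fun i _ => ?_)
  rw [RCLike.norm_ofReal]
  exact le_trans (by linarith [hd.h3 i]) (le_abs_self _)

theorem trace_swap [DecidableEq m] [DecidableEq n] (Y : Matrix m n 𝕜) (c : 𝕜) (k : ℕ) :
    ((1 + c • (Yᴴ * Y)) ^ k).trace + (Fintype.card m : 𝕜) =
      ((1 + c • (Y * Yᴴ)) ^ k).trace + (Fintype.card n : 𝕜) := by
  have h : ∀ k, Y * (1 + c • (Yᴴ * Y)) ^ k = (1 + c • (Y * Yᴴ)) ^ k * Y := fun k => by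
    induction k with
    | zero => simp
    | succ k ih =>
      rw [pow_succ, pow_succ, ← Matrix.mul_assoc, ih, Matrix.mul_assoc, Matrix.mul_assoc]
      simp [Matrix.mul_add, Matrix.add_mul, Matrix.mul_assoc]
  induction k with
  | zero => simp [add_comm]
  | succ k ih =>
    have e : ((1 + c • (Yᴴ * Y)) ^ k * (Yᴴ * Y)).trace =
        ((1 + c • (Y * Yᴴ)) ^ k * (Y * Yᴴ)).trace := by
      rw [← Matrix.mul_assoc, trace_mul_comm, ← Matrix.mul_assoc, h, Matrix.mul_assoc]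
    simp only [pow_succ, Matrix.mul_add, Matrix.mul_one, Matrix.mul_smul, trace_add, trace_smul, e]
    linear_combination ih

end Pool.Agent.MP_5daf37_lc.BN
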